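import Mathlib
import Pool.Agent.H23.GS2

set_option autoImplicit false
set_option maxSynthPendingDepth 3

namespace Pool.Agent.Results.MP_27ff1b_co.Lines

open Pool.Agent.H23

/-- a line in `ℝ^d` -/
def IsLine {d : ℕ} (L : Set (Fin d → ℝ)) : Prop :=
  ∃ p v : Fin d → ℝ, v ≠ 0 ∧ L = {x | ∃ t : ℝ, x = p + t • v}

def orthV {E F : Type} [AddCommGroup E] [Module ℝ E] [AddCommGroup F] [Module ℝ F]
    (B : E →ₗ[ℝ] E →ₗ[ℝ] F) (U : Submodule ℝ E) : Submodule ℝ E where
  carrier := {v | ∀ u ∈ U, B u v = 0}
  add_mem' ha hb u hu := by rw [map_add, ha u hu, hb u hu, add_zero]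
  zero_mem' u _ := by simp
  smul_mem' c v hv u hu := by rw [map_smul, hv u hu, smul_zero]

lemma span_le_orthV {E F : Type} [AddCommGroup E] [Module ℝ E] [AddCommGroup F] [Module ℝ F]
    (B : E →ₗ[ℝ] E →ₗ[ℝ] F) (x y : E) :
    Submodule.span ℝ {x} ≤ orthV B (Submodule.span ℝ {y}) ↔ B y x = 0 := by
  rw [Submodule.span_singleton_le_iff_mem]
  constructor
  · intro h
    exact h y (Submodule.mem_span_singleton_self _)
  · intro h u hu
    obtain ⟨t, rfl⟩ := Submodule.mem_span_singleton.mp hu
    rw [map_smul, LinearMap.smul_apply, h, smul_zero]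

abbrev EE (d : ℕ) := (Fin d → ℝ) × (Fin d → Fin d → ℝ)

def BB (d : ℕ) : EE d →ₗ[ℝ] EE d →ₗ[ℝ] (Fin d → Fin d → Fin d → ℝ) := LinearMap.mk₂ ℝ
  (fun u v a b c => u.2 a b * v.1 c + u.2 b c * v.1 a + u.2 c a * v.1 b
    + v.2 a b * u.1 c + v.2 b c * u.1 a + v.2 c a * u.1 b)
  (fun u u' v => by funext a b c; simp; ring)
  (fun t u v => by funext a b c; simp; ring)
  (fun u v v' => by funext a b c; simp; ring)
  (fun t u v => by funext a b c; simp; ring)

def CC (d : ℕ) : EE d →ₗ[ℝ] EE d →ₗ[ℝ] (Fin d → Fin d → ℝ) := LinearMap.mk₂ ℝ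
  (fun u v a b => u.1 a * v.1 b - u.1 b * v.1 a)
  (fun u u' v => by funext a b; simp; ring)
  (fun t u v => by funext a b; simp; ring)
  (fun u v v' => by funext a b; simp; ring)
  (fun t u v => by funext a b; simp; ring)

lemma par {d : ℕ} {v w : Fin d → ℝ} (hv : v ≠ 0) (h : ∀ a b, v a * w b - v b * w a = 0) :
    ∃ t : ℝ, w = t • v := by
  obtain ⟨a, ha⟩ := Function.ne_iff.1 hv
  have ha' : v a ≠ 0 := ha
  refine ⟨w a / v a, funext fun b => ?_⟩
  simp only [Pi.smul_apply, smul_eq_mul]
  field_simp
  linear_combination h a b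

lemma same {d : ℕ} {p q v w : Fin d → ℝ} (hw : w ≠ 0) (s t : ℝ) (h1 : w = t • v)
    (h2 : q = p + s • v) :
    {x | ∃ r : ℝ, x = p + r • v} = {x | ∃ r : ℝ, x = q + r • w} := by
  have ht : t ≠ 0 := by rintro rfl; exact hw (by simpa using h1)
  ext x
  constructor
  · rintro ⟨r, rfl⟩
    refine ⟨(r - s) / t, ?_⟩
    rw [h1, h2, smul_smul, div_mul_cancel₀ _ ht, add_assoc, ← add_smul]
    congr 2; ring
  · rintro ⟨r, rfl⟩
    exact ⟨s + r * t, by rw [h1, h2, smul_smul, add_assoc, ← add_smul]⟩

theorem result : ∀ (d m : ℕ) (F : SimpleGraph (Fin m)), F.IsAcyclic → ∃ f : ℕ → ℕ,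
    ∀ (n : ℕ) (L : Fin n → Set (Fin d → ℝ)) (G : SimpleGraph (Fin n)),
      Function.Injective L → (∀ i, IsLine (L i)) →
      (∀ i j, G.Adj i j ↔ i ≠ j ∧ (L i ∩ L j).Nonempty) →
      IsEmpty (F ↪g G) → G.chromaticNumber ≤ f G.cliqueNum := by
  intro d m F hF
  obtain ⟨T, hT, ⟨ι⟩⟩ := GS2.forest_in_tree F hF
  choose c hc using fun q => GS2.colour (orthV (BB d)) (orthV (CC d)) hT q
    (Module.finrank ℝ (EE d)) 1
  refine ⟨fun k => c (k + 1), fun n L G hL hline hadj hfree => ?_⟩
  choose p v hv hLe using hline
  let vec : Fin n → EE d := fun i => (v i, fun a b => p i a * v i b - p i b * v i a)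
  have hq : G.CliqueFree (G.cliqueNum + 1) := by
    intro s hs
    have := hs.isClique.card_le_cliqueNum
    rw [hs.card_eq] at this
    omega
  obtain ⟨col, hcol⟩ := hc (G.cliqueNum + 1) n G vec Finset.univ
    ⟨fun U W h w hw u hu => by
        have := h hu w hw
        funext a b e
        have := congrFun (congrFun (congrFun this a) b) e
        simp only [BB, LinearMap.mk₂_apply, Pi.zero_apply] at this ⊢
        linear_combination this,
      fun U W h w hw u hu => by
        have := h hu w hw
        funext a b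
        have := congrFun (congrFun this a) b
        simp only [CC, LinearMap.mk₂_apply, Pi.zero_apply] at this ⊢
        linear_combination -this,
      fun x h => hv x (congrArg Prod.fst h),
      fun x y h => by
        obtain ⟨t, ht⟩ := Submodule.mem_span_singleton.mp h
        have h1 : v x = t • v y := (congrArg Prod.fst ht).symm
        have ht0 : t ≠ 0 := by rintro rfl; exact hv x (by simpa using h1)
        obtain ⟨s, hs⟩ := par (w := p x - p y) (hv y) (fun a b => by
          have h2 := congrFun (congrFun (congrArg Prod.snd ht) a) b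
          simp only [vec, Prod.smul_snd, Pi.smul_apply, smul_eq_mul, h1] at h2
          simp only [Pi.sub_apply]
          apply mul_left_cancel₀ ht0
          linear_combination h2)
        apply hL
        rw [hLe x, hLe y]
        exact (same (hv x) s t h1 (by rw [← hs]; simp)).symm,
      fun x y => by
        rw [hadj, GS2.A, span_le_orthV, span_le_orthV]
        constructor
        · rintro ⟨hne, z, hz1, hz2⟩
          rw [hLe x] at hz1
          rw [hLe y] at hz2
          obtain ⟨s, hs⟩ := hz1
          obtain ⟨t, ht⟩ := hz2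
          have hp : ∀ a, p x a = p y a + t * v y a - s * v x a := fun a => by
            have := congrFun (hs.symm.trans ht) a
            simp only [Pi.add_apply, Pi.smul_apply, smul_eq_mul] at this
            linarith
          constructor
          · funext a b e
            simp only [BB, vec, LinearMap.mk₂_apply, Pi.zero_apply, hp]
            ring
          · intro h
            obtain ⟨r, hr⟩ := par (w := v x) (hv y) (fun a b => congrFun (congrFun h a) b)
            apply hne
            apply hL
            rw [hLe x, hLe y]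
            refine (same (hv x) (t - s * r) r hr (funext fun a => ?_)).symm
            have := congrFun hr a
            simp only [Pi.add_apply, Pi.smul_apply, smul_eq_mul] at this ⊢
            rw [hp, this]; ring
        · rintro ⟨h1, h2⟩
          obtain ⟨a, h2⟩ := Function.ne_iff.1 h2
          obtain ⟨b, h2⟩ := Function.ne_iff.1 h2
          have hδ : v y a * v x b - v y b * v x a ≠ 0 := h2
          refine ⟨?_, p x + (((p x a - p y a) * v y b - (p x b - p y b) * v y a)
            / (v y a * v x b - v y b * v x a)) • v x, ?_, ?_⟩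
          · rintro rfl
            exact hδ (by ring)
          · rw [hLe x]; exact ⟨_, rfl⟩
          · rw [hLe y]
            refine ⟨((p x a - p y a) * v x b - (p x b - p y b) * v x a)
              / (v y a * v x b - v y b * v x a), funext fun e => ?_⟩
            have := congrFun (congrFun (congrFun h1 a) b) e
            simp only [BB, vec, LinearMap.mk₂_apply, Pi.zero_apply] at this
            simp only [Pi.add_apply, Pi.smul_apply, smul_eq_mul]
            field_simp
            linear_combination -this⟩ hq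
    (fun ⟨e⟩ => hfree.false (e.comp ι))
    (fun u _ => ⟨{⊤}, ⟨by simp, by simp⟩, fun w _ _ => ⟨⊤, by simp, trivial⟩⟩)
  exact SimpleGraph.Colorable.chromaticNumber_le ⟨SimpleGraph.Coloring.mk col
    fun h => hcol _ (Finset.mem_univ _) _ (Finset.mem_univ _) h⟩

end Pool.Agent.Results.MP_27ff1b_co.Lines
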